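import Pool.Agent.E8helper43.ER.Stm

set_option autoImplicit false

/-!
# Almost regular simplices
-/

namespace Pool.Agent.E8helper71.ER

open Finset Pool.Agent.E8helper43.ER

open Classical in
/-- the cut semimetric of a set -/
noncomputable def cut {ι : Type} (S : Set ι) (i j : ι) : ℝ :=
  if decide (i ∈ S) = decide (j ∈ S) then 0 else 1

theorem ram_cut {ι : Type} (S : Set ι) : Ram (cut S) := by
  classical
  have h := (Ram.two (zero_le_one' ℝ)).comp fun i : ι => decide (i ∈ S)
  convert h
  simp only [cut]

theorem t_REG : S_REG := by
  classical
  intro ι _ D C hC h0 hs hD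
  rcases isEmpty_or_nonempty ι with h | h
  · have h1 : D = fun _ _ => 0 := by
      funext i
      exact (h.false i).elim
    rw [h1]
    exact Ram.zero ι
  have hNpos : (0 : ℝ) < Fintype.card ι := Nat.cast_pos.2 Fintype.card_pos
  obtain ⟨N, hN⟩ : ∃ N : ℝ, N = Fintype.card ι := ⟨_, rfl⟩
  rw [← hN] at hNpos hD
  obtain ⟨C', hC'⟩ : ∃ C' : ℝ, C' = C + C / (4 * N) := ⟨_, rfl⟩
  obtain ⟨e, he⟩ : ∃ e : ι → ι → ℝ, ∀ i j, e i j = if i = j then 0 else C' - D i j :=
    ⟨_, fun _ _ => rfl⟩
  have hq : 0 < C / (4 * N) := by positivity
  have hq2 : C / (2 * N) = 2 * (C / (4 * N)) := by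
    field_simp
    norm_num
  have he0 : ∀ i j, 0 ≤ e i j := by
    intro i j
    rw [he]
    split_ifs with hij
    · exact le_rfl
    · have h1 := (abs_le.1 (hD i j hij)).2
      linarith
  have he1 : ∀ i j, e i j ≤ C / (2 * N) := by
    intro i j
    rw [he, hq2]
    split_ifs with hij
    · positivity
    · have h1 := (abs_le.1 (hD i j hij)).1
      linarith
  have hes : ∀ i j, e i j = e j i := by
    intro i j
    rw [he, he, hs i j]
    by_cases hij : i = j
    · rw [if_pos hij, if_pos hij.symm]
    · rw [if_neg hij, if_neg fun h => hij h.symm]
  have hE : ∀ i, ∑ j, e i j ≤ C / 2 := by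
    intro i
    have h1 : ∑ j, e i j ≤ ∑ _j : ι, C / (2 * N) := sum_le_sum fun j _ => he1 i j
    rw [sum_const, card_univ, nsmul_eq_mul, ← hN] at h1
    have h2 : N * (C / (2 * N)) = C / 2 := by
      field_simp
    linarith
  obtain ⟨w, hw⟩ : ∃ w : ι → ℝ, ∀ i, w i = C' / 2 - (∑ j, e i j) / 2 := ⟨_, fun _ => rfl⟩
  have hw0 : ∀ i, 0 ≤ w i := by
    intro i
    rw [hw]
    have := hE i
    linarith
  have h1 : Ram fun i j => ∑ k, w k * cut {k} i j :=
    Ram.sum univ w (fun k => cut {k}) (fun k _ => hw0 k) fun k _ => ram_cut _
  have h2 : Ram fun i j => ∑ p : ι × ι, (e p.1 p.2 / 4) * cut {p.1, p.2} i j :=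
    Ram.sum univ (fun p : ι × ι => e p.1 p.2 / 4) (fun p => cut {p.1, p.2})
      (fun p _ => by have := he0 p.1 p.2; positivity) fun p _ => ram_cut _
  have h3 := h1.add h2
  have h4 : (fun i j => ∑ k, w k * cut {k} i j +
      ∑ p : ι × ι, (e p.1 p.2 / 4) * cut {p.1, p.2} i j) = D := by
    funext i j
    by_cases hij : i = j
    · subst hij
      rw [h0]
      simp [cut]
    · have hji : j ≠ i := fun h => hij h.symm
      have e1 : ∀ k, w k * cut {k} i j = w k * (if k = i then 1 else 0) +
          w k * (if k = j then 1 else 0) := by
        intro k
        by_cases hki : k = i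
        · subst hki
          simp [cut, hij, hji]
        · by_cases hkj : k = j
          · subst hkj
            simp [cut, hij, hji]
          · have h5 : i ≠ k := fun h => hki h.symm
            have h6 : j ≠ k := fun h => hkj h.symm
            simp [cut, hki, hkj, h5, h6]
      have e2 : ∀ a b, (e a b / 4) * cut {a, b} i j = (1 / 4) * (e a b * (if a = i then 1 else 0)) +
          (1 / 4) * (e a b * (if b = i then 1 else 0)) +
          (1 / 4) * (e a b * (if a = j then 1 else 0)) +
          (1 / 4) * (e a b * (if b = j then 1 else 0)) -
          (1 / 2) * (e a b * ((if a = i then 1 else 0) * (if b = j then 1 else 0))) -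
          (1 / 2) * (e a b * ((if a = j then 1 else 0) * (if b = i then 1 else 0))) := by
        intro a b
        by_cases hab : a = b
        · subst hab
          have : e a a = 0 := by rw [he, if_pos rfl]
          rw [this]
          ring
        · have hba : b ≠ a := fun h => hab h.symm
          by_cases hai : a = i
          · subst hai
            by_cases hbj : b = j
            · subst hbj
              simp [cut, hab, hba]
              ring
            · have : j ≠ b := fun h => hbj h.symm
              simp [cut, hab, hba, hbj, this, hij, hji]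
              ring
          · have hia : i ≠ a := fun h => hai h.symm
            by_cases haj : a = j
            · subst haj
              by_cases hbi : b = i
              · subst hbi
                simp [cut, hab, hba]
                ring
              · have : i ≠ b := fun h => hbi h.symm
                simp [cut, hab, hba, hbi, this, hij, hji]
                ring
            · have hja : j ≠ a := fun h => haj h.symm
              by_cases hbi : b = i
              · subst hbi
                simp [cut, hab, hba, hai, haj, hia, hja, hij, hji]
                ring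
              · have hib : i ≠ b := fun h => hbi h.symm
                by_cases hbj : b = j
                · subst hbj
                  simp [cut, hab, hba, hai, haj, hia, hja, hij, hji]
                  ring
                · have hjb : j ≠ b := fun h => hbj h.symm
                  simp [cut, hai, haj, hia, hja, hbi, hib, hbj, hjb]
      have a1 : ∀ i, ∑ a, ∑ b, e a b * (if a = i then (1 : ℝ) else 0) = ∑ b, e i b := by
        intro i
        rw [sum_comm]
        simp
      have a2 : ∀ i, ∑ a, ∑ b, e a b * (if b = i then (1 : ℝ) else 0) = ∑ b, e i b := by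
        intro i
        simp [hes i]
      have a3 : ∀ i j, ∑ a, ∑ b, e a b * ((if a = i then (1 : ℝ) else 0) * (if b = j then 1 else 0)) =
          e i j := by
        intro i j
        have : ∀ a, ∑ b, e a b * ((if a = i then (1 : ℝ) else 0) * (if b = j then 1 else 0)) =
            if a = i then e i j else 0 := by
          intro a
          by_cases hai : a = i
          · subst hai
            simp
          · simp [hai]
        rw [sum_congr rfl fun a _ => this a]
        simp
      have b1 : ∑ k, w k * cut {k} i j = w i + w j := by
        rw [sum_congr rfl fun k _ => e1 k, sum_add_distrib]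
        simp
      have b2 : ∑ p : ι × ι, (e p.1 p.2 / 4) * cut {p.1, p.2} i j =
          (∑ b, e i b) / 2 + (∑ b, e j b) / 2 - e i j := by
        rw [Fintype.sum_prod_type]
        show ∑ a, ∑ b, (e a b / 4) * cut {a, b} i j = _
        rw [sum_congr rfl fun a _ => sum_congr rfl fun b _ => e2 a b]
        simp only [sum_add_distrib, sum_sub_distrib, ← mul_sum]
        rw [a1 i, a2 i, a1 j, a2 j, a3 i j, a3 j i, hes j i]
        ring
      rw [b1, b2, hw, hw, he i j, if_neg hij]
      ring
  rw [← h4]
  exact h3

end Pool.Agent.E8helper71.ER
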